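import Pool.Agent.Helper70.LP.Transfer

set_option autoImplicit false

universe u

namespace Pool.Agent.Results.MP_78ea0d_gt.FiniteOrbit

open CategoryTheory Pool.Agent.Helper70.LP

/-- Q1, positive answer: for every continuous map between finite topological spaces, only
finitely many classes of maps of topological spaces arise from it by iterated left and right
Quillen negations. -/
theorem result {X Y : TopCat.{u}} (hX : Finite X) (hY : Finite Y) (f : X ⟶ Y) :
    (orbit f).Finite :=
  orbit_finite' hX hY f

end Pool.Agent.Results.MP_78ea0d_gt.FiniteOrbit
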